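import Pool.Agent.N282.GC.AllX

/-!
# The Good–Churchhouse variance law for almost all twists by characters and by `n^(it)`

For `ε, η > 0` there are `c > 0` and `X₀` such that, when `q` is `1` or a prime power, `T ≥ 1` and `q T` is large, for
all pairs `(χ, t)`, `χ` a character modulo `q` and `0 ≤ t ≤ T`, outside a set of measure at most `η φ(q) T`, all `X`
with `X₀ ≤ X ≤ (q T)^c` and all `H` with `X^ε ≤ H ≤ X^(1-ε)`

`(1/X) ∫_X^{2X} |∑_{|n-x| < H/2} μ(n) χ(n) n^(it)|^2 dx = (1 + O(η)) ρ_q H`,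

where `ρ_q` is the density of the squarefree integers prime to `q` (`q = 1`: the function is `μ(n) n^(it)` and the
main term is that of the conjecture). There is no hypothesis.

Proof: a bound for the number of solutions of `n₁ ⋯ n_k m'₁ ⋯ m'_l = m₁ ⋯ m_l n'₁ ⋯ n'_k` with the `n_i`, `m_i` in one
and the `n'_i`, `m'_i` in another short interval, `m` not a rearrangement of `n`; mean square over `(χ, t)` of the
unbalanced part; a net of `(X, H)` and chaining in `H`. Parts were formalised by helpers 130, 547, 763, 322, 327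
(counting), 297, 8, 433, 592, 169, 588, 935, 901, 291, 364.
-/

set_option autoImplicit false

open MeasureTheory Filter Topology Classical

namespace Pool.Agent.Results.MP_0575cc_nt.ComplexTwists

/-- `μ(n) χ(n) n^(it)`. -/
noncomputable def f {q : ℕ} (χ : DirichletCharacter ℂ q) (t : ℝ) (n : ℕ) : ℂ :=
  ((ArithmeticFunction.moebius n : ℤ) : ℂ) * χ n * Complex.exp (Complex.I * t * Real.log n)

/-- The mean square over `X ≤ x ≤ 2X` of the sum of `μ(n) χ(n) n^(it)` over the integers `n` with `|n - x| < H/2`. -/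
noncomputable def V {q : ℕ} (χ : DirichletCharacter ℂ q) (t X H : ℝ) : ℝ :=
  (1 / X) * ∫ x in X..2 * X,
    ‖∑ n ∈ (Finset.range (⌈x + H⌉₊ + 1)).filter (fun n : ℕ => |(n : ℝ) - x| < H / 2), f χ t n‖ ^ 2

/-- The density `(6/π²) ∏_{p ∣ q} p/(p+1)` of the squarefree integers prime to `q`. -/
noncomputable def ρ (q : ℕ) : ℝ := 6 / Real.pi ^ 2 * ∏ p ∈ q.primeFactors, (p : ℝ) / (p + 1)

/-- For all `ε, η > 0` there are `c > 0`, `X₀`, `D₀` such that, if `q` is `1` or a prime power, `T ≥ 1` and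
`q T ≥ D₀`, the measures of the sets of those `t` in `[0, T]` for which `|V χ t X H - ρ_q H| ≤ η ρ_q H` fails for
some `X`, `H` with `X₀ ≤ X ≤ (q T)^c` and `X^ε ≤ H ≤ X^(1-ε)`, summed over the characters `χ` modulo `q`, are
together at most `η φ(q) T`. -/
theorem result (ε η : ℝ) (hε : 0 < ε) (hη : 0 < η) : ∃ c X₀ D₀ : ℝ, 0 < c ∧ ∀ (q : ℕ) (_ : NeZero q) (T : ℝ),
    (q = 1 ∨ IsPrimePow q) → 1 ≤ T → D₀ ≤ q * T →
      ∑ χ : DirichletCharacter ℂ q, (volume {t : ℝ | t ∈ Set.Icc 0 T ∧ ¬ ∀ X H : ℝ, X₀ ≤ X → X ≤ (q * T) ^ c →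
        X ^ ε ≤ H → H ≤ X ^ (1 - ε) → |V χ t X H - ρ q * H| ≤ η * (ρ q * H)}).toReal ≤ η * (q.totient * T) := by
  have key : ∀ ε' : ℝ, 0 < ε' → ε' ≤ ε → ε' < 1 / 2 → ∃ c X₀ D₀ : ℝ, 0 < c ∧ ∀ (q : ℕ) (_ : NeZero q) (T : ℝ),
    (q = 1 ∨ IsPrimePow q) → 1 ≤ T → D₀ ≤ q * T →
      ∑ χ : DirichletCharacter ℂ q, (volume {t : ℝ | t ∈ Set.Icc 0 T ∧ ¬ ∀ X H : ℝ, X₀ ≤ X → X ≤ (q * T) ^ c →
        X ^ ε ≤ H → H ≤ X ^ (1 - ε) → |V χ t X H - ρ q * H| ≤ η * (ρ q * H)}).toReal ≤ η * (q.totient * T) := by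
    intro ε' h1 h2 h3
    obtain ⟨c, X₀, D₀, hc, h⟩ := Pool.Agent.N282.GC.FX_var Pool.Agent.N282.GC.a_XCN Pool.Agent.N282.GC.a_TR2
      ε' η h1 h3 hη
    refine ⟨c, max X₀ 1, D₀, hc, fun q hq T hqp hT hD => le_trans ?_ (h q hq T hqp hT hD)⟩
    refine Finset.sum_le_sum fun χ _ => ENNReal.toReal_mono ?_ (measure_mono ?_)
    · refine ne_top_of_le_ne_top ?_ (measure_mono (t := Set.Icc (0 : ℝ) T) fun t ht => ht.1)
      rw [Real.volume_Icc]
      exact ENNReal.ofReal_ne_top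
    · rintro t ⟨ht, ht2⟩
      refine ⟨ht, fun h' => ht2 fun X H a1 a2 a3 a4 => ?_⟩
      have hX1 : 1 ≤ X := (le_max_right _ _).trans a1
      exact h' X H ((le_max_left _ _).trans a1) a2
        ((Real.rpow_le_rpow_of_exponent_le hX1 h2).trans a3)
        (a4.trans (Real.rpow_le_rpow_of_exponent_le hX1 (by linarith)))
  exact key (min ε (1 / 4)) (lt_min hε (by norm_num)) (min_le_left _ _)
    (lt_of_le_of_lt (min_le_right _ _) (by norm_num))

end Pool.Agent.Results.MP_0575cc_nt.ComplexTwists
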