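import Pool.Agent.N699.GC.Tra

/-!
# The Good–Churchhouse formula for progressions of almost every difference from explicit sets of polylogarithmic size

For almost all differences `v`, for every law with a Fourier transform of at most `1 / log ^ W N` off the major arcs, in
particular for almost all `v` in explicit sets of `log ^ C N` integers, the variance formula
`∑ x, |∑ j ≤ H, a_j μ(x + j v)|² = (6 / π²) X ∑ |a_j|² + O(N / log ^ U N)` of Good and Churchhouse holds for the sums of
the Moebius function over the `H`-term progressions of difference `v`, for all `H ≤ log ^ A N`, for ALL weights, on all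
intervals of `x`; and the Moebius sums over short intervals at the points `x + j v` are asymptotically uncorrelated.
-/

set_option autoImplicit false

namespace Pool.Agent.Results.MP_0575cc_nt.ProgressionVariance

open Finset

/-- The Moebius function. -/
noncomputable def mu (n : ℕ) : ℂ := ((ArithmeticFunction.moebius n : ℤ) : ℂ)

/-- The variance formula for the progressions of difference `v`: for all `H ≤ log ^ A N`, all complex weights `a j` with
`|a j| ≤ 1` and all intervals `(x₀, x₁]` with `x₁ ≤ B N` the sum over `x₀ < x ≤ x₁` of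
`|a 1 * μ(x + v) + ... + a H * μ(x + H v)|²` is `(6 / π²) (x₁ - x₀) (|a 1|² + ... + |a H|²)`, with an error of at most
`N / log ^ U N`. -/
def Variance (A B U N v : ℕ) : Prop :=
  ∀ (H x₀ x₁ : ℕ) (a : ℕ → ℂ), (H : ℝ) ≤ Real.log N ^ A → x₀ ≤ x₁ → x₁ ≤ B * N → (∀ j, ‖a j‖ ≤ 1) →
    |∑ x ∈ Ioc x₀ x₁, ‖∑ j ∈ Icc 1 H, a j * mu (x + j * v)‖ ^ 2 -
      6 / Real.pi ^ 2 * ((x₁ : ℝ) - x₀) * ∑ j ∈ Icc 1 H, ‖a j‖ ^ 2| ≤ N / Real.log N ^ U

/-- The weighted sums of the Moebius function over the intervals of length `h ≤ log ^ A N` at the points `x + j v`,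
`1 ≤ j ≤ H`, `H ≤ log ^ A N`, are uncorrelated on every interval `x₀ < x ≤ x₁ ≤ B N`: the second moment of the sum of
these `H` sums is the sum of their second moments, with an error of at most `N / log ^ U N`, for all weights
`|a j m| ≤ 1`. -/
def Uncorrelated (A B U N v : ℕ) : Prop :=
  ∀ (H h x₀ x₁ : ℕ) (a : ℕ → ℕ → ℂ), (H : ℝ) ≤ Real.log N ^ A → (h : ℝ) ≤ Real.log N ^ A → x₀ ≤ x₁ → x₁ ≤ B * N →
    (∀ j m, ‖a j m‖ ≤ 1) →
    |∑ x ∈ Ioc x₀ x₁, ‖∑ j ∈ Icc 1 H, ∑ m ∈ range h, a j m * mu (x + j * v + m)‖ ^ 2 -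
      ∑ j ∈ Icc 1 H, ∑ x ∈ Ioc x₀ x₁, ‖∑ m ∈ range h, a j m * mu (x + j * v + m)‖ ^ 2| ≤ N / Real.log N ^ U

/-- The frequency `α` is on one of the major arcs `|α - c / q| ≤ log ^ E N / N`, `1 ≤ q ≤ log ^ E N`. -/
def Major (E N : ℕ) (α : ℝ) : Prop :=
  ∃ q : ℕ, 1 ≤ q ∧ (q : ℝ) ≤ Real.log N ^ E ∧ ∃ c : ℤ, |α - c / q| ≤ Real.log N ^ E / N

/-- `p` is a probability measure on the integers `0, ..., B N`, and its Fourier transform `∑ p v e(v α)` is at most
`1 / log ^ W N` in absolute value at all the real frequencies `α` off the major arcs. -/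
structure SmallOff (B E W N : ℕ) (p : ℕ → ℝ) : Prop where
  nonneg : ∀ v ∈ range (B * N + 1), 0 ≤ p v
  sum : ∑ v ∈ range (B * N + 1), p v = 1
  small : ∀ α : ℝ, ¬ Major E N α →
    ‖∑ v ∈ range (B * N + 1), (p v : ℂ) * Complex.exp (2 * Real.pi * Complex.I * ((v * α : ℝ) : ℂ))‖ ≤ 1 / Real.log N ^ W

/-- The triples `(b, u, i)`, where `b ≤ Q` is a prime, `0 ≤ u < b` and `0 ≤ i < Q`. -/
def triples (Q : ℕ) : Finset (ℕ × ℕ × ℕ) := (range (Q + 1) ×ˢ range Q ×ˢ range Q).filter fun t => t.1.Prime ∧ t.2.1 < t.1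

/-- The integer `u ⌊M / b⌋ + i` of the triple `(b, u, i)`: it is near to the rational multiple `(u / b) M` of `M`. -/
def point (M : ℕ) (t : ℕ × ℕ × ℕ) : ℕ := t.2.1 * (M / t.1) + t.2.2

open Classical in
/-- Let `A`, `B ≥ 1` and `U` be fixed.

(1) There is a `W` such that for every `E` and all large `N`: if `v` is a random integer whose law is any probability
measure on `0, ..., B N` with a Fourier transform of at most `1 / log ^ W N` off the major arcs of exponent `E`, then
with a probability of at least `1 - 1 / log ^ U N` the variance formula of Good and Churchhouse holds for the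
progressions `x + v, x + 2 v, ..., x + H v` of difference `v`, for all `H ≤ log ^ A N`, for all weights and all intervals
of `x`, and the Moebius sums over the short intervals at these points are uncorrelated.

(2) There is a `C` such that for all large `N`, all `Q` with `log ^ C N ≤ Q ≤ N`, all `M` with `N / B ≤ M ≤ B N` and all
`0 ≤ c ≤ B N` this holds for the differences `v = c + u ⌊M / b⌋ + i` (`b ≤ Q` prime, `0 ≤ u < b`, `0 ≤ i < Q`), with the
exception of a proportion of at most `1 / log ^ U N` of the triples `(b, u, i)`. (For `Q = log ^ C N` there are at most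
`log ^ (3 C) N` triples.) -/
theorem result (A B U : ℕ) (hB : 1 ≤ B) :
    (∃ W : ℕ, ∀ E : ℕ, ∃ N₀ : ℕ, ∀ N, N₀ ≤ N → ∀ p : ℕ → ℝ, SmallOff B E W N p →
        ∑ v ∈ range (B * N + 1), (if Variance A B U N v ∧ Uncorrelated A B U N v then 0 else p v) ≤ 1 / Real.log N ^ U) ∧
    (∃ C N₀ : ℕ, ∀ N, N₀ ≤ N → ∀ Q M c : ℕ, Real.log N ^ C ≤ Q → Q ≤ N → N ≤ B * M → M ≤ B * N → c ≤ B * N →
        (((triples Q).filter fun t => ¬ (Variance A B U N (c + point M t) ∧ Uncorrelated A B U N (c + point M t))).card : ℝ) ≤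
          ((triples Q).card : ℝ) / Real.log N ^ U) := by
  have hfm : ∀ N v : ℕ, Pool.Agent.N699.GC.Fm A B U N v → Variance A B U N v ∧ Uncorrelated A B U N v := by
    intro N v h
    exact ⟨fun H x₀ x₁ a hH hx hx1 ha => (h H 0 x₀ x₁ hH (by
        rw [Nat.cast_zero]
        exact pow_nonneg (Real.log_natCast_nonneg N) A) hx hx1).1 a ha,
      fun H h' x₀ x₁ a hH hh hx hx1 ha => (h H h' x₀ x₁ hH hh hx hx1).2 a ha⟩
  constructor
  · obtain ⟨W, hW⟩ := Pool.Agent.N699.GC.fm_law A B B U hB hB
    refine ⟨W, fun E => ?_⟩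
    obtain ⟨N1, h1⟩ := hW E
    refine ⟨N1, fun N hN p hp => ?_⟩
    have h := h1 N hN (range (B * N + 1)) p ⟨hp.nonneg, hp.sum, fun v hv => by
      rw [mem_range] at hv
      omega, hp.small⟩
    refine le_trans (sum_le_sum fun v hv => ?_) h
    have hp0 := hp.nonneg v hv
    by_cases hg : Pool.Agent.N699.GC.Fm A B U N v
    · rw [if_pos hg, if_pos (hfm N v hg)]
    · rw [if_neg hg]
      split_ifs
      · exact hp0
      · exact le_rfl
  · obtain ⟨W, hW⟩ := Pool.Agent.N699.GC.fm_law A B (B + 1 + B) U hB (by omega)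
    obtain ⟨N1, h1⟩ := hW (W + 1)
    obtain ⟨N2, h2⟩ := Pool.Agent.N699.RP.prime_law B W hB
    refine ⟨2 * W + 5, N1 + N2 + 3, fun N hN Q M c hQ1 hQ2 hM1 hM2 hc => ?_⟩
    have h3 := h2 N (by omega) M hM1 hM2 Q hQ1 hQ2
    have h4 := Pool.Agent.N699.GC.lw_trans (B + 1) B (W + 1) W N (Pool.Agent.N699.RP.pts Q)
      (fun _ => 1 / ((Pool.Agent.N699.RP.pts Q).card : ℝ)) (fun _ _ => by positivity) (Pool.Agent.N699.RP.pt M) c hc h3
    have h5 := h1 N (by omega) _ _ h4
    rw [Pool.Agent.N699.GC.push_bad] at h5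
    have h6 : ∑ t ∈ triples Q, (if ¬ (Variance A B U N (c + point M t) ∧ Uncorrelated A B U N (c + point M t)) then
        1 / ((triples Q).card : ℝ) else 0) ≤ 1 / Real.log N ^ U := by
      refine le_trans (sum_le_sum fun t _ => ?_) h5
      have hcard : (Pool.Agent.N699.RP.pts Q).card = (triples Q).card := rfl
      rw [hcard]
      by_cases hg : Pool.Agent.N699.GC.Fm A B U N (c + Pool.Agent.N699.RP.pt M t)
      · have hg' : Variance A B U N (c + point M t) ∧ Uncorrelated A B U N (c + point M t) := hfm N _ hg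
        rw [if_pos hg, if_neg (not_not.2 hg')]
      · rw [if_neg hg]
        split_ifs
        · positivity
        · exact le_rfl
    rw [← sum_filter, sum_const, nsmul_eq_mul, mul_one_div] at h6
    rcases Nat.eq_zero_or_pos (triples Q).card with h0 | h0
    · have h7 : ((triples Q).filter fun t =>
          ¬ (Variance A B U N (c + point M t) ∧ Uncorrelated A B U N (c + point M t))).card = 0 := by
        have := card_filter_le (triples Q) (fun t =>
          ¬ (Variance A B U N (c + point M t) ∧ Uncorrelated A B U N (c + point M t)))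
        omega
      rw [h7, h0, Nat.cast_zero, zero_div]
    · have h0r : (0 : ℝ) < ((triples Q).card : ℝ) := by exact_mod_cast h0
      rw [div_le_iff₀ h0r] at h6
      refine h6.trans (le_of_eq ?_)
      ring

end Pool.Agent.Results.MP_0575cc_nt.ProgressionVariance
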