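import Pool.Agent.N282.GC.All

/-!
# The Good–Churchhouse variance law for almost all signs at the primes

Let `s_p` be independent random signs (each value with probability `1/2`). For almost every realisation the function
`f(n) = μ(n) ∏_{p ∣ n} s_p` satisfies the statement of Q1 literally, with `μ` replaced by `f`: for every `ε > 0` and
every function `H = H(X)` with `X^ε < H < X^(1-ε)` (also chosen after the signs)

`(1/X) ∫_X^{2X} |∑_{|n-x| < H/2} f(n)|^2 dx ~ H / ζ(2)`.

Proof: a bound for the number of solutions of `n₁ ⋯ n_k m₁ ⋯ m_k = □` with the `n_i` in one and the `m_i` in another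
short interval, the values of the `n_i` not paired (`S_CL`: choose the integers one after the other, starting with
two that have a large common divisor); mean square of the unpaired part of the `k`-th moment; Borel–Cantelli along a
net of `(X, H)`; chaining in `H`. Parts were formalised by helpers 130, 547, 763 (counting), 277, 494, 588, 935, 901,
291, 364, 300, 225.
-/

set_option autoImplicit false

open MeasureTheory Filter Topology

namespace Pool.Agent.Results.MP_0575cc_nt.RandomSigns

/-- The function `f(n) = μ(n) ∏_{p ∣ n} s_p`. -/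
noncomputable def twist (s : ℕ → ℝ) (n : ℕ) : ℝ :=
  ((ArithmeticFunction.moebius n : ℤ) : ℝ) * ∏ p ∈ n.primeFactors, s p

/-- The statement of Q1 for a function `f` in place of the Moebius function: for every `ε > 0` and every `H(X)` with
`X^ε < H(X) < X^(1-ε)` for large `X`, the mean square over `X ≤ x ≤ 2X` of the sum of `f(n)` over `|n - x| < H/2`
is asymptotic to `H / ζ(2)`. -/
def VarianceLaw (f : ℕ → ℝ) : Prop :=
  ∀ ε : ℝ, 0 < ε → ∀ H : ℝ → ℝ,
    (∀ᶠ X in atTop, X ^ ε < H X ∧ H X < X ^ (1 - ε)) →
    Tendsto
      (fun X : ℝ =>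
        ((1 / X) * ∫ x in X..2 * X,
            (∑ n ∈ (Finset.range (⌈x + H X⌉₊ + 1)).filter (fun n : ℕ => |(n : ℝ) - x| < H X / 2), f n) ^ 2)
          / (H X / (Real.pi ^ 2 / 6)))
      atTop (nhds 1)

/-- For independent random signs `s_p`, almost surely `μ(n) ∏_{p ∣ n} s_p` satisfies the variance law. -/
theorem result {Ω : Type} [MeasurableSpace Ω] (P : Measure Ω) [IsProbabilityMeasure P] (s : ℕ → Ω → ℝ)
    (hm : ∀ p, Measurable (s p)) (hs : ∀ p ω, s p ω = 1 ∨ s p ω = -1)
    (h0 : ∀ p, P {ω | s p ω = 1} = 1 / 2) (hi : ProbabilityTheory.iIndepFun s P) :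
    ∀ᵐ ω ∂P, VarianceLaw (twist fun p => s p ω) := by
  have h1 : ∀ p, ∫ ω, s p ω ∂P = 0 := by
    intro p
    have hA : MeasurableSet {ω | s p ω = 1} := hm p (measurableSet_singleton 1)
    have e : ∀ ω, s p ω = 2 * ({ω | s p ω = 1}.indicator (fun _ => (1 : ℝ)) ω) - 1 := by
      intro ω
      rcases hs p ω with h | h
      · rw [Set.indicator_of_mem (show ω ∈ {ω | s p ω = 1} from h), h]
        norm_num
      · rw [Set.indicator_of_notMem (show ω ∉ {ω | s p ω = 1} from fun h' : s p ω = 1 => by
          rw [h] at h'
          norm_num at h'), h]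
        norm_num
    have i1 : Integrable ({ω | s p ω = 1}.indicator (fun _ => (1 : ℝ))) P :=
      (integrable_const (1 : ℝ)).indicator hA
    rw [integral_congr_ae (Eventually.of_forall e), integral_sub (i1.const_mul 2) (integrable_const 1),
      integral_const_mul, integral_indicator hA, setIntegral_const, integral_const]
    simp [Measure.real, h0 p]
  exact Pool.Agent.N282.GC.FIN_var Pool.Agent.N282.GC.a_BC Pool.Agent.N282.GC.a_TR2 P s hm hs h1 hi

end Pool.Agent.Results.MP_0575cc_nt.RandomSigns
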