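import Pool.Agent.N282.GC.All

/-!
# The Good–Churchhouse variance law for almost all real character twists

For `ε, η > 0` there are `c > 0` and `X₀` such that for all large `D`, all but at most `η D` of the odd `d ≤ D`, all
`X` with `X₀ ≤ X ≤ D^c` and all `H` with `X^ε ≤ H ≤ X^(1-ε)`

`(1/X) ∫_X^{2X} |∑_{|n-x| < H/2} μ(n) (n/d)|^2 dx = (1 + O(η)) ρ_d H`,

where `(n/d)` is the Jacobi symbol and `ρ_d` is the density of the squarefree integers prime to `d` (for `d = 1` the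
main term is that of the conjecture). There is no hypothesis.

Proof: a bound for the number of solutions of `n₁ ⋯ n_k m₁ ⋯ m_k = □` with the `n_i` in one and the `m_i` in another
short interval, the values of the `n_i` not paired; mean square over `d` of the unpaired part; a net of `(X, H)` and
chaining in `H`. Parts were formalised by helpers 130, 547, 763 (counting), 277, 494, 588, 935, 901, 291, 364, 346
(Jacobi symbols), 271.
-/

set_option autoImplicit false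

open MeasureTheory Filter Topology Classical

namespace Pool.Agent.Results.MP_0575cc_nt.RealCharacterTwists

/-- `μ(n) (n/d)`, where `(n/d)` is the Jacobi symbol. -/
noncomputable def f (d n : ℕ) : ℝ := ((ArithmeticFunction.moebius n : ℤ) : ℝ) * ((jacobiSym n d : ℤ) : ℝ)

/-- The mean square over `X ≤ x ≤ 2X` of the sum of `μ(n) (n/d)` over the integers `n` with `|n - x| < H/2`. -/
noncomputable def V (d : ℕ) (X H : ℝ) : ℝ :=
  (1 / X) * ∫ x in X..2 * X,
    (∑ n ∈ (Finset.range (⌈x + H⌉₊ + 1)).filter (fun n : ℕ => |(n : ℝ) - x| < H / 2), f d n) ^ 2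

/-- The density `(6/π²) ∏_{p ∣ d} p/(p+1)` of the squarefree integers prime to `d`. -/
noncomputable def ρ (d : ℕ) : ℝ := 6 / Real.pi ^ 2 * ∏ p ∈ d.primeFactors, (p : ℝ) / (p + 1)

/-- For all `ε, η > 0` there are `c > 0`, `X₀`, `D₀` such that for every `D ≥ D₀` all but at most `η D` of the odd
`d ≤ D` satisfy `|V d X H - ρ_d H| ≤ η ρ_d H` for all `X`, `H` with `X₀ ≤ X ≤ D^c` and `X^ε ≤ H ≤ X^(1-ε)`. -/
theorem result (ε η : ℝ) (hε : 0 < ε) (hη : 0 < η) : ∃ (c X₀ : ℝ) (D₀ : ℕ), 0 < c ∧ ∀ D : ℕ, D₀ ≤ D →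
    (((Finset.Icc 1 D).filter fun d => Odd d ∧ ¬ ∀ X H : ℝ, X₀ ≤ X → X ≤ (D : ℝ) ^ c → X ^ ε ≤ H →
      H ≤ X ^ (1 - ε) → |V d X H - ρ d * H| ≤ η * (ρ d * H)).card : ℝ) ≤ η * D := by
  have key : ∀ ε' : ℝ, 0 < ε' → ε' ≤ ε → ε' < 1 / 2 → ∃ (c X₀ : ℝ) (D₀ : ℕ), 0 < c ∧ ∀ D : ℕ, D₀ ≤ D →
    (((Finset.Icc 1 D).filter fun d => Odd d ∧ ¬ ∀ X H : ℝ, X₀ ≤ X → X ≤ (D : ℝ) ^ c → X ^ ε ≤ H →
      H ≤ X ^ (1 - ε) → |V d X H - ρ d * H| ≤ η * (ρ d * H)).card : ℝ) ≤ η * D := by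
    intro ε' h1 h2 h3
    obtain ⟨c, X₀, D₀, hc, h⟩ := Pool.Agent.N282.GC.FJ_var Pool.Agent.N282.GC.a_CN Pool.Agent.N282.GC.a_TR2
      Pool.Agent.N282.GC.t_RHO ε' η h1 h3 hη
    refine ⟨c, max X₀ 1, D₀, hc, fun D hD => le_trans ?_ (h D hD)⟩
    refine Nat.cast_le.2 (Finset.card_le_card fun d hd => ?_)
    rw [Finset.mem_filter] at hd ⊢
    refine ⟨hd.1, hd.2.1, fun h' => hd.2.2 fun X H a1 a2 a3 a4 => ?_⟩
    have hX1 : 1 ≤ X := (le_max_right _ _).trans a1
    exact h' X H ((le_max_left _ _).trans a1) a2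
      ((Real.rpow_le_rpow_of_exponent_le hX1 h2).trans a3)
      (a4.trans (Real.rpow_le_rpow_of_exponent_le hX1 (by linarith)))
  exact key (min ε (1 / 4)) (lt_min hε (by norm_num)) (min_le_left _ _)
    (lt_of_le_of_lt (min_le_right _ _) (by norm_num))

end Pool.Agent.Results.MP_0575cc_nt.RealCharacterTwists
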